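import Pool.Agent.R235.DS.Same

/-!
# Nevanlinna currents of second lifts can charge the singular locus

For `X = ℙ²(ℂ)`, the entire curve `f(z) = [1 : z : exp z]` and `k = 2`: Nevanlinna currents of the
lift `f_[2] : ℂ → X₂` exist, and the trace measure of every one of them gives the singular locus
`D₂` of `X₂` a mass bounded below by a positive constant.
-/

set_option autoImplicit false

open MeasureTheory Filter Topology Set

namespace Pool.Agent.Results.MP_0aacdf_an.ChargesSingular

open Pool.Agent.R235.DS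

theorem result :
    -- `X2` is a faithful compact model of the second stage of the Demailly-Semple tower of `ℙ²`
    (IsCompact X2 ∧ D2 ⊆ X2 ∧ ∀ d e : Dat, d.ok → e.ok → (d.pt = e.pt ↔ d.Same e)) ∧
    -- the lift of the curve is defined everywhere
    (∀ z : ℂ, (lift2 Fcurve z).ok) ∧
    -- Nevanlinna currents exist
    (∃ S, IsNevanlinna fTwo fs S) ∧
    -- and all of them charge the singular locus
    ∃ c : ℝ, 0 < c ∧ ∀ S, IsNevanlinna fTwo fs S →
      ∃ σ : Measure (Idx × Idx → ℂ), IsProbabilityMeasure σ ∧ IsTrace fs S σ ∧ σ X2ᶜ = 0 ∧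
        (∀ σ' : Measure (Idx × Idx → ℂ), IsFiniteMeasure σ' → IsTrace fs S σ' → σ' = σ) ∧
        ENNReal.ofReal c ≤ σ D2 := by
  refine ⟨⟨isCompact_X2, ?_, fun d e hd he => pt_eq_iff hd he⟩, lift_ok, exists_nevanlinna, ?_⟩
  · rw [D2_eq]; exact inter_subset_left
  · obtain ⟨c, hc, h⟩ := trace_charges
    refine ⟨c, hc, fun S hS => ?_⟩
    obtain ⟨σ, h1, h2, h3, h4⟩ := h S hS
    refine ⟨σ, h1, h2, h3, fun σ' h5 h6 => ?_, h4⟩
    apply ext_of_forall_integral_eq_of_IsFiniteMeasure
    intro g
    rw [h6 g g.continuous, h2 g g.continuous]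

end Pool.Agent.Results.MP_0aacdf_an.ChargesSingular
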